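import Pool.Agent.Q256.MP.Stm3

/-!
# Job ONLY (project MP of helper256): the graphs are stable under the automorphisms of `ℂ`
-/

set_option autoImplicit false

open Height NumberField Filter Topology
open scoped LinearAlgebra.Projectivization

namespace Pool.Agent.Q214.MPO

open Pool.Agent.W276.GE Pool.Agent.Q256.MP

theorem rep_conj {N : ℕ} (τ : ℂ ≃+* ℂ) (p : Pt N) :
    ∃ u : ℂ, u ≠ 0 ∧ ∀ j, (conjP τ p).rep j = u * τ (p.rep j) := by
  obtain ⟨u, hu⟩ := Projectivization.exists_smul_eq_mk_rep ℂ (fun j => τ (p.rep j)) (conj_ne τ p)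
  refine ⟨u, u.ne_zero, fun j => ?_⟩
  show (Projectivization.mk ℂ (fun j => τ (p.rep j)) (conj_ne τ p)).rep j = _
  rw [← hu]
  rfl

theorem conj_mk {N : ℕ} (τ : ℂ ≃+* ℂ) (z : Fin (N + 1) → ℂ) (hz : z ≠ 0)
    (hz' : (fun j => τ (z j)) ≠ 0) :
    conjP τ (Projectivization.mk ℂ z hz) = Projectivization.mk ℂ (fun j => τ (z j)) hz' := by
  obtain ⟨a, ha⟩ := Projectivization.exists_smul_eq_mk_rep ℂ z hz
  have ha' : τ (a : ℂ) ≠ 0 := fun h => a.ne_zero ((map_eq_zero τ).1 h)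
  refine (Projectivization.mk_eq_mk_iff ℂ _ _ (conj_ne τ _) hz').2 ⟨Units.mk0 _ ha', ?_⟩
  funext j
  show τ (a : ℂ) * τ (z j) = τ ((Projectivization.mk ℂ z hz).rep j)
  rw [← ha, ← map_mul]
  rfl

theorem conj_Rp {N D : ℕ} (τ : ℂ ≃+* ℂ)
    {Φ : ∀ (K : Type) [Field K] [NumberField K], (Fin (N + 1) → K) → Prop} {p : Pt N}
    (h : p ∈ Rp N D Φ) : conjP τ p ∈ Rp N D Φ := by
  obtain ⟨z, hz, rfl, K, i1, i2, φ, P, h1, h2, h3, h4⟩ := h
  have hz' : (fun j => τ (z j)) ≠ 0 := by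
    intro h
    apply hz
    funext j
    exact (map_eq_zero τ).1 (congrFun h j)
  refine ⟨fun j => τ (z j), hz', conj_mk τ z hz hz', K, i1, i2, (τ : ℂ →+* ℂ).comp φ, P, h1, h2, h3, ?_⟩
  funext j
  show τ (z j) = τ (φ (P j))
  rw [h4]

theorem conj_Im {N d : ℕ} (τ : ℂ ≃+* ℂ) {F : Sy N d} {p q : Pt N} (h : Im F p q) :
    Im F (conjP τ p) (conjP τ q) := by
  obtain ⟨c, hc⟩ := h
  obtain ⟨u, hu, h1⟩ := rep_conj τ p
  obtain ⟨v, hv, h2⟩ := rep_conj τ q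
  refine ⟨u ^ d * τ c * v⁻¹, fun j => ?_⟩
  have e1 : (conjP τ p).rep = fun i => u * τ (p.rep i) := funext h1
  have e2 : ev (F j) (fun i => τ (p.rep i)) = τ (ev (F j) p.rep) :=
    (ev_map (τ : ℂ →+* ℂ) (F j) p.rep).symm
  rw [e1, ev_smul, e2, hc j, h2 j, map_mul]
  field_simp

theorem onl : S_onl := by
  intro N D d θ H F _ τ x hx
  exact ⟨conj_Rp τ hx.1, conj_Im τ hx.2⟩

end Pool.Agent.Q214.MPO
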